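import Pool.Agent.Run7.h784.TG.StmA
import Pool.Agent.Run7.h550.TS.AVG

/-!
# AVG: the average over all twists is bounded (genus `g`)

Project TG (helper784); adapted from `Run7/h550/TS/AVG.lean` (helper550) by helper382.
-/

set_option autoImplicit false
set_option linter.all false

open Polynomial IsDedekindDomain
open scoped Classical

namespace Run7.h382.TG.AVG

open Pool.Agent.N874.PP (Ov Ev Sq1)
open Pool.Agent.N352.PJ (IsGen Crd Fam GoodR Ht dsc)
open Run7.h550.TS (mem_prD eq_of_dvd prD_mul dg_prD sqf_fin sq mem_sq card_sq mem_irrD pr mem_pr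
  sq_mul sq_div count_id nat_irr_le uT_one uT_ins)
open Run7.h875.TS (dg sz sqL irrD prD uT NRs sqf S_TRS)
open Run7.h784.TG

/-! ### The renewal inequality -/

theorem evn (C c : ℝ) (hc : 0 < c) : ∃ N₁ : ℕ, ∀ N ≥ N₁, C * (1 + N) ≤ (2 : ℝ) ^ (c * (N : ℝ)) := by
  have h1 : Filter.Tendsto (fun x : ℝ => C * (1 + x) / (2 : ℝ) ^ (c * x)) Filter.atTop (nhds 0) := by
    have hl := Real.log_pos (show (1:ℝ) < 2 by norm_num)
    have h2 := isLittleO_rpow_exp_pos_mul_atTop 1 (b := Real.log 2 * c) (by positivity)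
    have h3 := isLittleO_rpow_exp_pos_mul_atTop 0 (b := Real.log 2 * c) (by positivity)
    have h4 := ((h3.add h2).const_mul_left C).tendsto_div_nhds_zero
    refine h4.congr' ?_
    filter_upwards with x
    rw [Real.rpow_zero, Real.rpow_one, Real.rpow_def_of_pos (by norm_num : (0:ℝ) < 2)]
    congr 2
    ring
  have h5 := h1.eventually (gt_mem_nhds (show (0:ℝ) < 1 by norm_num))
  rw [Filter.eventually_atTop] at h5
  obtain ⟨x₀, hx₀⟩ := h5
  refine ⟨⌈x₀⌉₊, fun N hN => ?_⟩
  have := hx₀ N ((Nat.le_ceil x₀).trans (by exact_mod_cast hN))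
  rw [div_lt_one (by positivity)] at this
  exact this.le

theorem renewal (τ : ℕ → ℝ) (hτ : ∀ n, 0 ≤ τ n) (C₀ : ℝ) (hC : 0 ≤ C₀) (q : ℝ) (hq : 2 ≤ q)
    (A M : ℝ) (hA : 0 ≤ A) (hM : 0 ≤ M)
    (f : ℕ → ℕ → ℝ)
    (h1 : ∀ N, N * τ N ≤ ∑ m ∈ Finset.Icc 1 N, f N m)
    (h2 : ∀ N m, 1 ≤ m → m ≤ N →
      f N m ≤ 3 / 4 * τ (N - m) + A + C₀ * (1 + N) / √(q ^ m) * τ (N - m))
    (h3 : ∀ N m, 1 ≤ m → m ≤ N → f N m ≤ M * τ (N - m)) : ∃ B : ℝ, ∀ N, τ N ≤ B := by
  set J : ℕ := ⌈10 * M⌉₊ + 1 with hJ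
  have hJ1 : (1 : ℝ) ≤ J := by rw [hJ]; push_cast; linarith [Nat.cast_nonneg (α := ℝ) ⌈10 * M⌉₊]
  have hJ0 : (0 : ℝ) < J := by linarith
  have hJM : 10 * M ≤ J := by
    rw [hJ]
    push_cast
    linarith [Nat.le_ceil (10 * M)]
  obtain ⟨N₁, hN₁⟩ := evn (20 * C₀) (1 / (2 * J)) (by positivity)
  obtain ⟨B₀, hB₀⟩ : ∃ B₀ : ℝ, ∀ n ≤ N₁, τ n ≤ B₀ :=
    ⟨∑ n ∈ Finset.range (N₁ + 1), τ n, fun n hn =>
      Finset.single_le_sum (f := τ) (fun i _ => hτ i) (Finset.mem_range.2 (by omega))⟩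
  set B := max B₀ (10 * A) with hB
  have hBA : 10 * A ≤ B := le_max_right _ _
  have hB0 : 0 ≤ B := by linarith
  refine ⟨B, fun N => ?_⟩
  induction N using Nat.strong_induction_on with
  | _ N ih =>
    rcases le_or_gt N N₁ with hN | hN
    · exact (hB₀ N hN).trans (le_max_left _ _)
    have hN0 : 0 < N := by omega
    have hbd : ∀ m ∈ Finset.Icc 1 N, f N m ≤ if m ≤ N / J then M * B else 4 / 5 * B + A := by
      intro m hm
      rw [Finset.mem_Icc] at hm
      have hlt : τ (N - m) ≤ B := ih _ (by omega)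
      have h0 : 0 ≤ τ (N - m) := hτ _
      split_ifs with hmN
      · exact (h3 N m hm.1 hm.2).trans (mul_le_mul_of_nonneg_left hlt hM)
      · refine (h2 N m hm.1 hm.2).trans ?_
        have hm' : (N : ℝ) / J ≤ m := by
          rw [div_le_iff₀ hJ0]
          have h4 : N < m * J := (Nat.div_lt_iff_lt_mul (by omega)).1 (not_le.1 hmN)
          exact_mod_cast h4.le
        have h5 : (2 : ℝ) ^ (1 / (2 * (J : ℝ)) * (N : ℝ)) ≤ √(q ^ m) := by
          apply Real.le_sqrt_of_sq_le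
          rw [← Real.rpow_natCast, ← Real.rpow_mul (by norm_num)]
          calc (2 : ℝ) ^ (1 / (2 * (J : ℝ)) * (N : ℝ) * (2 : ℕ)) ≤ (2 : ℝ) ^ (m : ℝ) := by
                apply Real.rpow_le_rpow_of_exponent_le (by norm_num)
                push_cast
                refine le_trans (le_of_eq ?_) hm'
                field_simp
            _ = 2 ^ m := Real.rpow_natCast _ _
            _ ≤ q ^ m := pow_le_pow_left₀ (by norm_num) hq m
        have h6 := hN₁ N hN.le
        have hpos : 0 < √(q ^ m) := Real.sqrt_pos.2 (by positivity)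
        have h7 : C₀ * (1 + N) / √(q ^ m) ≤ 1 / 20 := by
          rw [div_le_div_iff₀ hpos (by norm_num)]
          linarith
        have h8 : C₀ * (1 + N) / √(q ^ m) * τ (N - m) ≤ 1 / 20 * τ (N - m) :=
          mul_le_mul_of_nonneg_right h7 h0
        linarith
    have h9 := (h1 N).trans (Finset.sum_le_sum hbd)
    have hMB : 0 ≤ M * B := mul_nonneg hM hB0
    have h10 : ∑ m ∈ Finset.Icc 1 N, (if m ≤ N / J then M * B else 4 / 5 * B + A) ≤
        N * (4 / 5 * B + A) + (N / J : ℕ) * (M * B) := by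
      have : ∀ m ∈ Finset.Icc 1 N, (if m ≤ N / J then M * B else 4 / 5 * B + A) ≤
          (4 / 5 * B + A) + if m ≤ N / J then M * B else 0 := by
        intro m _
        split_ifs <;> linarith
      refine (Finset.sum_le_sum this).trans ?_
      rw [Finset.sum_add_distrib, Finset.sum_const, Nat.card_Icc, ← Finset.sum_filter,
        Finset.sum_const, nsmul_eq_mul, nsmul_eq_mul]
      have h11 : ((Finset.Icc 1 N).filter (fun m => m ≤ N / J)).card ≤ N / J := by
        calc _ ≤ (Finset.Icc 1 (N / J)).card := Finset.card_le_card (by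
              intro m hm
              rw [Finset.mem_filter, Finset.mem_Icc] at hm
              rw [Finset.mem_Icc]
              exact ⟨hm.1.1, hm.2⟩)
          _ = N / J := by simp
      have h12 : (((Finset.Icc 1 N).filter (fun m => m ≤ N / J)).card : ℝ) ≤ (N / J : ℕ) := by
        exact_mod_cast h11
      have h13 : (N + 1 - 1 : ℕ) = N := by omega
      rw [h13]
      have : (((Finset.Icc 1 N).filter (fun m => m ≤ N / J)).card : ℝ) * (M * B) ≤
          (N / J : ℕ) * (M * B) := mul_le_mul_of_nonneg_right h12 hMB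
      linarith
    have h14 : ((N / J : ℕ) : ℝ) ≤ N / J := by
      rw [le_div_iff₀ hJ0]
      exact_mod_cast Nat.div_mul_le_self N J
    have h15 : ((N / J : ℕ) : ℝ) * (M * B) ≤ N / 10 * B := by
      calc ((N / J : ℕ) : ℝ) * (M * B) ≤ (N : ℝ) / J * (M * B) :=
            mul_le_mul_of_nonneg_right h14 hMB
        _ ≤ (N : ℝ) / J * ((J : ℝ) / 10 * B) := by
            have : M * B ≤ (J : ℝ) / 10 * B := mul_le_mul_of_nonneg_right (by linarith) hB0
            exact mul_le_mul_of_nonneg_left this (by positivity)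
        _ = N / 10 * B := by field_simp
    have hNpos : (0 : ℝ) < N := by exact_mod_cast hN0
    have h16 : (N : ℝ) * τ N ≤ N * B := by
      calc (N : ℝ) * τ N ≤ N * (4 / 5 * B + A) + N / 10 * B := by linarith
        _ = N * (9 / 10 * B + A) := by ring
        _ ≤ N * B := mul_le_mul_of_nonneg_left (by linarith) hNpos.le
    exact le_of_mul_le_mul_left h16 hNpos

section prime

variable {k : Type} [Field k]

theorem goodT_uT [Finite k] {g : ℕ} {f : k[X][X]} {D : k[X]} {N : ℕ} (hD : D ∈ sq (dsc g f) N)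
    {nrs : k[X] → k[X]} (hg : NRs nrs) (T : Finset k[X]) : GoodT g f (prD D) (uT nrs T) := by
  rw [mem_sq] at hD
  obtain ⟨h1, h2, h3, h4⟩ := hD
  refine ⟨fun P hP => ((mem_prD h1.ne_zero).1 hP).1, fun P hP => ((mem_prD h1.ne_zero).1 hP).2.1,
    fun P hP h => ?_, fun P hP h => ?_⟩
  · have := (mem_prD h1.ne_zero).1 hP
    exact this.2.1.not_isUnit (h4.isUnit_of_dvd' this.2.2 h)
  · have := (mem_prD h1.ne_zero).1 hP
    unfold uT at h
    split_ifs at h
    · exact Run7.h550.TS.NRs.nd hg this.2.1 h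
    · exact this.2.1.not_isUnit (isUnit_of_dvd_one h)

theorem card_nf_le {F : Type} [Field F] (p : F[X]) (hp : p ≠ 0) :
    Multiset.card (UniqueFactorizationMonoid.normalizedFactors p) ≤ p.natDegree := by
  have h0 : (0 : F[X]) ∉ UniqueFactorizationMonoid.normalizedFactors p :=
    UniqueFactorizationMonoid.zero_notMem_normalizedFactors p
  have h1 := Polynomial.natDegree_multiset_prod _ h0
  have h2 : p.natDegree = (UniqueFactorizationMonoid.normalizedFactors p).prod.natDegree :=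
    natDegree_eq_of_degree_eq
      (degree_eq_degree_of_associated (UniqueFactorizationMonoid.prod_normalizedFactors hp)).symm
  rw [h2, h1]
  have h3 := Multiset.card_nsmul_le_sum (s := (UniqueFactorizationMonoid.normalizedFactors p).map
    natDegree) (a := 1) (by
      intro x hx
      obtain ⟨y, hy, rfl⟩ := Multiset.mem_map.1 hx
      exact (UniqueFactorizationMonoid.irreducible_of_normalized_factor y hy).natDegree_pos)
  rw [Multiset.card_map, smul_eq_mul, mul_one] at h3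
  exact h3

end prime

section main

variable {k K L O : Type} [Field k] [Finite k] [Field K] [Algebra k[X] K]
  [IsFractionRing k[X] K]
  [Field L] [Algebra K L] [Algebra k[X] L] [IsScalarTower k[X] K L] [CommRing O]
  [IsDedekindDomain O] [Algebra O L] [IsFractionRing O L] [Algebra k[X] O]
  [IsScalarTower k[X] O L] [IsIntegralClosure O k[X] L] {g N₀ : ℕ} {r : k[X]} {f : k[X][X]} {θ : L}

theorem nr_le (hDIC : P_DIC) (hF : Fm g N₀ r f) (h : IsGen g K f θ) {Q : k[X]} (hQm : Q.Monic)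
    (hQ : Irreducible Q) (hQd : ¬ Q ∣ dsc g f) : nr O Q ≤ 2 * g + 1 := by
  haveI : Fact (Irreducible Q) := ⟨hQ⟩
  haveI : Module.Finite k (AdjoinRoot Q) :=
    Module.Finite.of_basis (AdjoinRoot.powerBasis hQm.ne_zero).basis
  haveI : Finite (AdjoinRoot Q) := Module.finite_of_finite k
  letI : Fintype (AdjoinRoot Q) := Fintype.ofFinite _
  have hmin : minpoly k (AdjoinRoot.root Q) = Q :=
    (minpoly.eq_of_irreducible_of_monic hQ (by rw [AdjoinRoot.aeval_eq, AdjoinRoot.mk_self]) hQm).symm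
  have hfr : Module.finrank k (AdjoinRoot Q) = Q.natDegree := by
    rw [(AdjoinRoot.powerBasis hQm.ne_zero).finrank, AdjoinRoot.powerBasis_dim]
  have h1 := (hDIC k K L O g N₀ r f θ hF h (AdjoinRoot Q) (AdjoinRoot.root Q)
    (by rw [hmin, hfr]) (by rwa [hmin])).1
  rw [hmin] at h1
  rw [h1]
  unfold nf
  have hm : (f.map (evt (k := k) (AdjoinRoot.root Q))).Monic := h.mon.map _
  refine (card_nf_le _ hm.ne_zero).trans ?_
  rw [h.mon.natDegree_map, h.deg]

variable (K O f θ) in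
/-- the average over the local classes -/
noncomputable def Av (nrs : k[X] → k[X]) (D : k[X]) : ℝ :=
  (1 / 2 : ℝ) ^ (prD D).card * ∑ T ∈ (prD D).powerset, (sz (SelG O K f θ (prD D) (uT nrs T)) : ℝ)

theorem Av_nonneg (nrs : k[X] → k[X]) (D : k[X]) : 0 ≤ Av K O f θ nrs D := by
  unfold Av
  positivity

theorem Av_mul (nrs : k[X] → k[X]) {N m : ℕ} {D Q : k[X]}
    (hD : D ∈ sq (dsc g f) N) (hQ : Q ∈ pr (dsc g f) D m) :
    Av K O f θ nrs (D * Q) = (1 / 2 : ℝ) ^ ((prD D).card + 1) * ∑ T ∈ (prD D).powerset,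
      ((sz (SelG O K f θ (insert Q (prD D)) (Function.update (uT nrs T) Q 1)) : ℝ) +
        sz (SelG O K f θ (insert Q (prD D)) (Function.update (uT nrs T) Q (nrs Q)))) := by
  have hD' := mem_sq.1 hD
  have hQ' := (mem_pr hD'.1.ne_zero).1 hQ
  have hQD : Q ∉ prD D := fun h => hQ'.2.2.2.1 ((mem_prD hD'.1.ne_zero).1 h).2.2
  unfold Av
  rw [prD_mul hD'.1 hQ'.1 hQ'.2.1, Finset.card_insert_of_notMem hQD,
    Finset.sum_powerset_insert hQD, Finset.sum_add_distrib]
  congr 2
  · refine Finset.sum_congr rfl fun T hT => ?_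
    rw [← uT_one]
    intro h
    exact hQD (Finset.mem_powerset.1 hT h)
  · refine Finset.sum_congr rfl fun T hT => ?_
    rw [uT_ins]

theorem avg_main (hONE : P_ONE) (hSTEP : P_STEP) (hREP : P_REP) (hGRP : P_GRP) (hTRS : S_TRS)
    (hDIC : P_DIC) (hF : Fm g N₀ r f) (hfull : Full f) (h : IsGen g K f θ)
    (nrs : k[X] → k[X]) (hg : NRs nrs) : ∃ B : ℝ, ∀ N : ℕ,
      ∑ D ∈ sq (dsc g f) N, Av K O f θ nrs D ≤ B * (Nat.card k : ℝ) ^ N := by
  obtain ⟨C₀, hC₀⟩ := hONE k K L O g N₀ r f θ hF hfull h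
  have hq2 : (2 : ℝ) ≤ Nat.card k := by
    exact_mod_cast Finite.one_lt_card (α := k)
  have hqpos : (0 : ℝ) < Nat.card k := by linarith
  set q : ℝ := (Nat.card k : ℝ) with hq
  set A : ℝ := 5 / 4 * g with hA
  have hA0 : 0 ≤ A := by positivity
  set M : ℝ := 2 ^ (2 * g) with hM
  have hM0 : 0 ≤ M := by positivity
  -- the two bounds
  have hw1 : ∀ Q : k[X], Irreducible Q → ¬ Q ∣ (fun _ : k[X] => (1 : k[X])) Q :=
    fun Q hQ h => hQ.not_isUnit (isUnit_of_dvd_one h)
  have hw2 : ∀ Q : k[X], Irreducible Q → ¬ Q ∣ nrs Q := fun Q hQ => Run7.h550.TS.NRs.nd hg hQ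
  have hsplit : ∀ (N m : ℕ) (D : k[X]), D ∈ sq (dsc g f) N →
      (m : ℝ) * ∑ Q ∈ pr (dsc g f) D m, Av K O f θ nrs (D * Q) =
        (1 / 2 : ℝ) ^ ((prD D).card + 1) * ∑ T ∈ (prD D).powerset,
          ((m : ℝ) * ∑ Q ∈ pr (dsc g f) D m,
            (sz (SelG O K f θ (insert Q (prD D)) (Function.update (uT nrs T) Q 1)) : ℝ) +
          (m : ℝ) * ∑ Q ∈ pr (dsc g f) D m,
            (sz (SelG O K f θ (insert Q (prD D)) (Function.update (uT nrs T) Q (nrs Q))) : ℝ)) := by
    intro N m D hD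
    rw [Finset.sum_congr rfl fun Q hQ => Av_mul nrs hD hQ, ← Finset.mul_sum, Finset.sum_comm,
      mul_left_comm, Finset.mul_sum]
    congr 1
    refine Finset.sum_congr rfl fun T _ => ?_
    rw [Finset.sum_add_distrib, mul_add]
  have hcardT : ∀ D : k[X], (1 / 2 : ℝ) ^ ((prD D).card + 1) * ∑ T ∈ (prD D).powerset, (2 : ℝ) = 1 := by
    intro D
    rw [Finset.sum_const, Finset.card_powerset, nsmul_eq_mul, pow_succ]
    push_cast
    have : (1 / 2 : ℝ) ^ (prD D).card * 2 ^ (prD D).card = 1 := by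
      rw [← mul_pow]
      norm_num
    linear_combination this
  have hb1 : ∀ (N m : ℕ) (D : k[X]), 1 ≤ m → D ∈ sq (dsc g f) N →
      (m : ℝ) * ∑ Q ∈ pr (dsc g f) D m, Av K O f θ nrs (D * Q) ≤
        (3 / 4 * Av K O f θ nrs D + A) * q ^ m +
          C₀ * (1 + N) * √(q ^ m) * Av K O f θ nrs D := by
    intro N m D hm hD
    rw [hsplit N m D hD]
    have hdg : (dg (prD D) : ℝ) = N := by
      rw [mem_sq] at hD
      rw [dg_prD hD.1 hD.2.2.1, hD.2.1]
    have hT : ∀ T ∈ (prD D).powerset, ((m : ℝ) * ∑ Q ∈ pr (dsc g f) D m,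
            (sz (SelG O K f θ (insert Q (prD D)) (Function.update (uT nrs T) Q 1)) : ℝ) +
          (m : ℝ) * ∑ Q ∈ pr (dsc g f) D m,
            (sz (SelG O K f θ (insert Q (prD D)) (Function.update (uT nrs T) Q (nrs Q))) : ℝ)) ≤
        2 * ((3 / 4 * sz (SelG O K f θ (prD D) (uT nrs T)) + A) * q ^ m +
          C₀ * (1 + N) * √(q ^ m) * sz (SelG O K f θ (prD D) (uT nrs T))) := by
      intro T _
      have e1 := hC₀ (prD D) (uT nrs T) (goodT_uT hD hg T) (fun _ => 1) hw1 m hm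
      have e2 := hC₀ (prD D) (uT nrs T) (goodT_uT hD hg T) nrs hw2 m hm
      rw [hdg] at e1 e2
      unfold pr
      linarith
    refine (mul_le_mul_of_nonneg_left (Finset.sum_le_sum hT) (by positivity)).trans (le_of_eq ?_)
    have e3 := hcardT D
    unfold Av
    rw [← Finset.mul_sum, Finset.sum_add_distrib, ← Finset.sum_mul, Finset.sum_add_distrib,
      ← Finset.mul_sum, ← Finset.mul_sum, ← Finset.mul_sum]
    rw [Finset.sum_const, nsmul_eq_mul] at e3 ⊢
    rw [pow_succ] at e3 ⊢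
    linear_combination (A * q ^ m) * e3
  have hb2 : ∀ (N m : ℕ) (D : k[X]), 1 ≤ m → D ∈ sq (dsc g f) N →
      (m : ℝ) * ∑ Q ∈ pr (dsc g f) D m, Av K O f θ nrs (D * Q) ≤
        M * Av K O f θ nrs D * q ^ m := by
    intro N m D hm hD
    rw [hsplit N m D hD]
    have hD' := mem_sq.1 hD
    have key : ∀ T : Finset k[X], ∀ w : k[X] → k[X], (∀ Q : k[X], Irreducible Q → ¬ Q ∣ w Q) →
        (m : ℝ) * ∑ Q ∈ pr (dsc g f) D m,
          (sz (SelG O K f θ (insert Q (prD D)) (Function.update (uT nrs T) Q (w Q))) : ℝ) ≤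
        M * sz (SelG O K f θ (prD D) (uT nrs T)) * q ^ m := by
      intro T w hw
      have hgood := goodT_uT hD hg T
      have hne := (hREP k K L O g N₀ r f θ hF h).2 (prD D) (uT nrs T) hgood
        ((hGRP k K L O g N₀ r f θ hF h).2 (prD D) (uT nrs T) hgood).1
      have hQ : ∀ Q ∈ pr (dsc g f) D m,
          (sz (SelG O K f θ (insert Q (prD D)) (Function.update (uT nrs T) Q (w Q))) : ℝ) ≤
            M * sz (SelG O K f θ (prD D) (uT nrs T)) := by
        intro Q hQ
        have hQ' := (mem_pr hD'.1.ne_zero).1 hQ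
        have hQD : Q ∉ prD D := fun h => hQ'.2.2.2.1 ((mem_prD hD'.1.ne_zero).1 h).2.2
        obtain ⟨hnr1, T', -, -, -, -, -, h7⟩ := hSTEP k K L O g N₀ r f θ hF h (prD D) (uT nrs T)
          hgood hne Q hQ'.1 hQ'.2.1 hQD hQ'.2.2.2.2 (w Q) (hw Q hQ'.2.1)
        have h8 : sz (SelG O K f θ (prD D) (uT nrs T) ⊓ T') ≤
            sz (SelG O K f θ (prD D) (uT nrs T)) :=
          Subgroup.relIndex_le_of_le_right inf_le_left hne
        have hnr := nr_le (O := O) hDIC hF h hQ'.1 hQ'.2.1 hQ'.2.2.2.2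
        set s := sz (SelG O K f θ (prD D) (uT nrs T)) with hs
        have h9 : sz (SelG O K f θ (insert Q (prD D)) (Function.update (uT nrs T) Q (w Q))) * s ≤
            2 ^ (2 * g) * s * s := by
          refine h7.trans ?_
          calc 2 ^ (nr O Q - 1) * sz (SelG O K f θ (prD D) (uT nrs T) ⊓ T') ^ 2 ≤
                2 ^ (2 * g) * s ^ 2 := by
                refine Nat.mul_le_mul (Nat.pow_le_pow_right (by norm_num) (by omega)) ?_
                exact Nat.pow_le_pow_left h8 2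
            _ = _ := by ring
        have h10 := Nat.le_of_mul_le_mul_right h9 (Nat.pos_of_ne_zero hne)
        rw [hM]
        exact_mod_cast h10
      have h10 := Finset.sum_le_sum hQ
      rw [Finset.sum_const, nsmul_eq_mul] at h10
      have h11 := nat_irr_le (k := k) hTRS (show 0 < m by omega)
      have h12 : (m : ℝ) * (pr (dsc g f) D m).card ≤ q ^ m := by
        refine le_trans ?_ h11
        refine mul_le_mul_of_nonneg_left ?_ (Nat.cast_nonneg m)
        exact_mod_cast Finset.card_filter_le _ _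
      calc _ ≤ (m : ℝ) * ((pr (dsc g f) D m).card * (M * sz (SelG O K f θ (prD D) (uT nrs T)))) :=
            mul_le_mul_of_nonneg_left h10 (Nat.cast_nonneg m)
        _ = ((m : ℝ) * (pr (dsc g f) D m).card) * (M * sz (SelG O K f θ (prD D) (uT nrs T))) := by
            ring
        _ ≤ q ^ m * (M * sz (SelG O K f θ (prD D) (uT nrs T))) :=
            mul_le_mul_of_nonneg_right h12 (by positivity)
        _ = _ := by ring
    have hT : ∀ T ∈ (prD D).powerset, ((m : ℝ) * ∑ Q ∈ pr (dsc g f) D m,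
            (sz (SelG O K f θ (insert Q (prD D)) (Function.update (uT nrs T) Q 1)) : ℝ) +
          (m : ℝ) * ∑ Q ∈ pr (dsc g f) D m,
            (sz (SelG O K f θ (insert Q (prD D)) (Function.update (uT nrs T) Q (nrs Q))) : ℝ)) ≤
        2 * M * q ^ m * sz (SelG O K f θ (prD D) (uT nrs T)) := by
      intro T _
      have e1 := key T (fun _ => 1) hw1
      have e2 := key T nrs hw2
      linarith
    refine (mul_le_mul_of_nonneg_left (Finset.sum_le_sum hT) (by positivity)).trans (le_of_eq ?_)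
    unfold Av
    rw [← Finset.mul_sum, pow_succ]
    ring
  -- the recursion
  set τ : ℕ → ℝ := fun N => (∑ D ∈ sq (dsc g f) N, Av K O f θ nrs D) / q ^ N with hτ
  have hτ0 : ∀ N, 0 ≤ τ N := fun N => div_nonneg
    (Finset.sum_nonneg fun D _ => Av_nonneg nrs D) (by positivity)
  have hren := renewal τ hτ0 C₀ (Nat.cast_nonneg _) q hq2 A M hA0 hM0
    (fun N m => (∑ D ∈ sq (dsc g f) (N - m), (m : ℝ) * ∑ Q ∈ pr (dsc g f) D m,
      Av K O f θ nrs (D * Q)) / q ^ N)
  suffices hren' : ∃ B : ℝ, ∀ N, τ N ≤ B by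
    obtain ⟨B, hB⟩ := hren'
    refine ⟨B, fun N => ?_⟩
    have := hB N
    simp only [hτ] at this
    rwa [div_le_iff₀ (by positivity)] at this
  apply hren
  · intro N
    rw [← Finset.sum_div, ← count_id]
    simp only [hτ]
    rw [mul_div_assoc]
  · intro N m hm hmN
    have hqN : q ^ N = q ^ (N - m) * q ^ m := by rw [← pow_add, Nat.sub_add_cancel hmN]
    have hqm : 0 < q ^ m := by positivity
    have hqNm : 0 < q ^ (N - m) := by positivity
    have hsq : √(q ^ m) * √(q ^ m) = q ^ m := Real.mul_self_sqrt hqm.le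
    have hsqpos : 0 < √(q ^ m) := Real.sqrt_pos.2 hqm
    have hNm : ((N - m : ℕ) : ℝ) ≤ N := by exact_mod_cast Nat.sub_le N m
    have e1 : ∑ D ∈ sq (dsc g f) (N - m), (m : ℝ) * ∑ Q ∈ pr (dsc g f) D m,
        Av K O f θ nrs (D * Q) ≤
        ∑ D ∈ sq (dsc g f) (N - m), ((3 / 4 * q ^ m + C₀ * (1 + N) * √(q ^ m)) *
          Av K O f θ nrs D + A * q ^ m) := by
      refine Finset.sum_le_sum fun D hD => (hb1 (N - m) m D hm hD).trans ?_
      have hA := Av_nonneg (K := K) (O := O) (f := f) (θ := θ) nrs D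
      have : (C₀ : ℝ) * (1 + ((N - m : ℕ) : ℝ)) * √(q ^ m) * Av K O f θ nrs D ≤
          C₀ * (1 + N) * √(q ^ m) * Av K O f θ nrs D := by
        gcongr
      linarith
    have eR : ∑ D ∈ sq (dsc g f) (N - m), ((3 / 4 * q ^ m + C₀ * (1 + N) * √(q ^ m)) *
          Av K O f θ nrs D + A * q ^ m) = (3 / 4 * q ^ m + C₀ * (1 + N) * √(q ^ m)) *
          ∑ D ∈ sq (dsc g f) (N - m), Av K O f θ nrs D +
          ((sq (dsc g f) (N - m)).card : ℝ) * (A * q ^ m) := by
      rw [Finset.sum_add_distrib, ← Finset.mul_sum, Finset.sum_const, nsmul_eq_mul]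
    rw [eR] at e1
    have e2 : ((sq (dsc g f) (N - m)).card : ℝ) ≤ q ^ (N - m) := by
      have := card_sq (dsc g f) (N - m)
      rw [hq]
      exact_mod_cast this
    have e3 : (∑ D ∈ sq (dsc g f) (N - m), Av K O f θ nrs D) = τ (N - m) * q ^ (N - m) := by
      simp only [hτ]
      rw [div_mul_cancel₀ _ hqNm.ne']
    rw [e3] at e1
    rw [div_le_iff₀ (by positivity), hqN]
    refine e1.trans ?_
    have e4 : ((sq (dsc g f) (N - m)).card : ℝ) * (A * q ^ m) ≤ q ^ (N - m) * (A * q ^ m) :=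
      mul_le_mul_of_nonneg_right e2 (by positivity)
    have e5 : ∀ s Q t x c : ℝ, 0 < s → s * s = Q → c / s * t * (x * Q) = c * s * (t * x) := by
      intro s Q t x c hs hQ
      rw [← hQ]
      field_simp
    have e6 := e5 (√(q ^ m)) (q ^ m) (τ (N - m)) (q ^ (N - m)) (C₀ * (1 + (N : ℝ))) hsqpos hsq
    linarith [e4, e6]
  · intro N m hm hmN
    have hqN : q ^ N = q ^ (N - m) * q ^ m := by rw [← pow_add, Nat.sub_add_cancel hmN]
    have hqm : 0 < q ^ m := by positivity
    have hqNm : 0 < q ^ (N - m) := by positivity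
    have e1 : ∑ D ∈ sq (dsc g f) (N - m), (m : ℝ) * ∑ Q ∈ pr (dsc g f) D m,
        Av K O f θ nrs (D * Q) ≤
        ∑ D ∈ sq (dsc g f) (N - m), M * Av K O f θ nrs D * q ^ m :=
      Finset.sum_le_sum fun D hD => hb2 (N - m) m D hm hD
    have eR : ∑ D ∈ sq (dsc g f) (N - m), M * Av K O f θ nrs D * q ^ m =
        M * (∑ D ∈ sq (dsc g f) (N - m), Av K O f θ nrs D) * q ^ m := by
      rw [← Finset.sum_mul, ← Finset.mul_sum]
    rw [eR] at e1
    have e3 : (∑ D ∈ sq (dsc g f) (N - m), Av K O f θ nrs D) = τ (N - m) * q ^ (N - m) := by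
      simp only [hτ]
      rw [div_mul_cancel₀ _ hqNm.ne']
    rw [e3] at e1
    rw [div_le_iff₀ (by positivity), hqN]
    refine e1.trans (le_of_eq (by ring))

end main

theorem T_AVG (hONE : P_ONE) (hSTEP : P_STEP) (hREP : P_REP) (hGRP : P_GRP) (hTRS : S_TRS)
    (hDIC : P_DIC) : P_AVG := by
  intro k K L O _ _ _ _ _ _ _ _ _ _ _ _ _ _ _ _ g N r f θ hF hfull h nrs hg
  obtain ⟨B, hB⟩ := avg_main (O := O) hONE hSTEP hREP hGRP hTRS hDIC hF hfull h nrs hg
  refine ⟨B, fun N => ?_⟩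
  refine le_trans (le_of_eq ?_) (hB N)
  rw [finsum_mem_eq_finite_toFinset_sum _ (sqf_fin (dsc g f) N)]
  rfl

end Run7.h382.TG.AVG
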