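import Pool.Agent.Run7.h784.TG.Stm
import Pool.Agent.Run7.h225.TS.REP
import Pool.Agent.N769.PJ.Int

/-!
# REP: small representatives, finiteness (genus `g`)

Project TG (helper784); adapted from `Run7/h225/TS/{RepB,REP}.lean` (helper225) by helper382.
-/

set_option autoImplicit false
set_option linter.all false

open Polynomial IsDedekindDomain WithZero FF
open Pool.Agent.N874.PP Pool.Agent.TH115.GD Run7.h225.TS
open scoped Classical IntermediateField

namespace Run7.h382.TG.REP

open Pool.Agent.N352.PJ (IsGen Crd Fam GoodR Ht)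
open Run7.h875.TS (dg sz sqL)
open Run7.h784.TG

section gen

variable {g : ℕ} {k K L : Type} [Field k] [Field K] [Algebra k[X] K] [IsFractionRing k[X] K]
  [Field L] [Algebra K L] [Algebra k[X] L] [IsScalarTower k[X] K L] {f : k[X][X]} {θ : L}

theorem isFF (h : IsGen g K f θ) [Algebra k L]
    (hk : ∀ c : k, algebraMap k L c = algebraMap k[X] L (C c)) : IsFF k L := by
  set x := algebraMap k[X] L X with hx
  have hK : ∀ r : K, algebraMap K L r ∈ k⟮x⟯ := by
    intro r
    obtain ⟨n, d, hd, rfl⟩ := IsFractionRing.div_surjective (A := k[X]) r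
    have hp : ∀ p : k[X], algebraMap k[X] L p ∈ k⟮x⟯ := by
      intro p
      rw [← RepB.aeval_x hk]
      exact IntermediateField.algebra_adjoin_le_adjoin k {x} (aeval_mem_adjoin_singleton k x)
    rw [map_div₀, ← IsScalarTower.algebraMap_apply k[X] K L,
      ← IsScalarTower.algebraMap_apply k[X] K L]
    exact div_mem (hp n) (hp d)
  refine IsFF.of_finite (RepB.transc (K := K) hk) ?_
  refine ⟨⟨Finset.univ.image fun i : Fin (2 * g + 1) => θ ^ (i : ℕ), ?_⟩⟩
  rw [eq_top_iff]
  intro y _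
  obtain ⟨c, rfl⟩ := h.gen y
  refine Submodule.sum_mem _ fun i _ => ?_
  have e : algebraMap K L (c i) * θ ^ (i : ℕ) = (⟨_, hK (c i)⟩ : k⟮x⟯) • θ ^ (i : ℕ) := by
    simp only [IntermediateField.smul_def, smul_eq_mul]
  rw [e]
  exact Submodule.smul_mem _ _ (Submodule.subset_span (by
    rw [Finset.coe_image]
    exact ⟨i, by simp, rfl⟩))

/-- the bound at infinity -/
theorem inf_bound (h : IsGen g K f θ) (hd : Pool.Agent.N352.PJ.dsc g f ≠ 0) [Algebra k L]
    (hk : ∀ c : k, algebraMap k L c = algebraMap k[X] L (C c)) :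
    ∃ c : ℕ, ∀ (m : ℕ) (β : L), β ≠ 0 →
      (∀ P : Place k L, -(m : ℤ) * max (- P.ord (algebraMap k[X] L X)) 0 ≤ P.ord β) →
      ∀ i, Infv.vi k K (h.basis.coord i β) ≤ exp ((c : ℤ) + m) := by
  set x := algebraMap k[X] L X with hx
  have hx0 : x ≠ 0 := fun h0 =>
    (X_ne_zero : (X : k[X]) ≠ 0) (RepB.algL_inj (K := K) (L := L) (by rw [← hx, h0, map_zero]))
  haveI : Module.Finite K L := Module.Finite.of_basis h.basis
  haveI := Pool.Agent.N769.PJ.isSep h hd
  letI a1 : Algebra (AtInf K) (AtInf L) := (inferInstance : Algebra K L)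
  have hmap : ∀ p : k[X], infMap k L p = algebraMap K L (infMap k K p) := by
    intro p
    unfold infMap
    rw [coe_eval₂RingHom, coe_eval₂RingHom, hom_eval₂, map_inv₀,
      ← IsScalarTower.algebraMap_apply k[X] K L, ← RingHom.comp_assoc,
      ← IsScalarTower.algebraMap_eq k[X] K L]
  haveI a2 : IsScalarTower k[X] (AtInf K) (AtInf L) := IsScalarTower.of_algebraMap_eq hmap
  haveI a3 : FiniteDimensional (AtInf K) (AtInf L) := (inferInstance : FiniteDimensional K L)
  haveI a4 : Algebra.IsSeparable (AtInf K) (AtInf L) := (inferInstance : Algebra.IsSeparable K L)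
  letI a5 : Algebra k (AtInf L) := (inferInstance : Algebra k L)
  haveI a6 : IsScalarTower k k[X] (AtInf L) := IsScalarTower.of_algebraMap_eq fun c => by
    show algebraMap k L c = infMap k L (C c)
    rw [hk]
    unfold infMap
    rw [coe_eval₂RingHom, eval₂_C]
    rfl
  obtain ⟨s, hs⟩ := RepB.reg_gen k k[X] (AtInf K) (AtInf L)
  -- a bound for the coordinates of the generators
  obtain ⟨c, hc⟩ : ∃ c : ℕ, ∀ e ∈ s, ∀ i : Fin (2 * g + 1),
      Infv.vi k K (h.basis.coord i e) ≤ exp (c : ℤ) := by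
    have h1 : ∀ (e : L) (i : Fin (2 * g + 1)), ∃ c : ℕ,
        Infv.vi k K (h.basis.coord i e) ≤ exp (c : ℤ) := by
      intro e i
      by_cases h0 : h.basis.coord i e = 0
      · exact ⟨0, by rw [h0, map_zero]; exact zero_le⟩
      · have h2 : Infv.vi k K (h.basis.coord i e) ≠ 0 := (Valuation.ne_zero_iff _).2 h0
        refine ⟨(log (Infv.vi k K (h.basis.coord i e))).toNat, ?_⟩
        rw [← log_le_iff_le_exp h2]
        exact Int.self_le_toNat _
    choose c hc using h1
    refine ⟨∑ e ∈ s, ∑ i, c e i, fun e he i => (hc e i).trans ?_⟩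
    rw [exp_le_exp]
    have h2 : c e i ≤ ∑ i, c e i := Finset.single_le_sum (f := fun i => c e i)
      (fun _ _ => Nat.zero_le _) (Finset.mem_univ i)
    have h3 : ∑ i, c e i ≤ ∑ e ∈ s, ∑ i, c e i := Finset.single_le_sum
      (f := fun e => ∑ i, c e i) (fun _ _ => Nat.zero_le _) he
    exact_mod_cast h2.trans h3
  refine ⟨c, fun m β hβ hP i => ?_⟩
  have hmem := hs ((x⁻¹) ^ m * β : L) (fun P hPr => by
    have h1 : P.Reg (infMap k L X) := hPr X
    have h2 : infMap k L X = x⁻¹ := by simp [infMap, hx]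
    rw [h2] at h1
    have h3 := (P.reg_iff (inv_ne_zero hx0)).1 h1
    have h3' : 0 ≤ P.ord (x⁻¹ : L) := h3
    have h4 : P.ord (x⁻¹ : L) = - P.ord x := P.ord_inv x
    have hne : ((x⁻¹) ^ m * β : L) ≠ 0 := mul_ne_zero (pow_ne_zero _ (inv_ne_zero hx0)) hβ
    refine (P.reg_iff hne).2 ?_
    have h5 : P.ord ((x⁻¹) ^ m * β : L) = (m : ℤ) * P.ord (x⁻¹ : L) + P.ord β := by
      have e1 : P.ord ((x⁻¹) ^ m * β : L) = P.ord ((x⁻¹ : L) ^ m) + P.ord β :=
        P.ord_mul (pow_ne_zero _ (inv_ne_zero hx0)) hβ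
      have e2 : P.ord ((x⁻¹ : L) ^ m) = (m : ℤ) * P.ord (x⁻¹ : L) := P.ord_pow _ m
      rw [e1, e2]
    show 0 ≤ P.ord ((x⁻¹) ^ m * β : L)
    rw [h5, h4]
    have h6 := hP P
    rw [h4] at h3'
    rw [max_eq_left h3'] at h6
    linarith)
  have key : ∀ (p : k[X]) (y : L),
      Infv.vi k K (h.basis.coord i (algebraMap K L (infMap k K p) * y)) ≤
      Infv.vi k K (h.basis.coord i y) := by
    intro p y
    rw [← Algebra.smul_def, map_smul, smul_eq_mul, map_mul, Infv.vi_infMap]
    exact mul_le_of_le_one_left' (HeightOneSpectrum.intValuation_le_one _ _)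
  have hco : ∀ γ : AtInf L, γ ∈ Submodule.span k[X] (s : Set (AtInf L)) →
      Infv.vi k K (h.basis.coord i γ) ≤ exp (c : ℤ) := by
    intro γ hγ
    induction hγ using Submodule.span_induction with
    | mem y hy => exact hc y hy i
    | zero =>
      have : h.basis.coord i (0 : L) = 0 := map_zero _
      show Infv.vi k K (h.basis.coord i (0 : L)) ≤ _
      rw [this, map_zero]
      exact zero_le
    | add y z _ _ hy hz =>
      have : h.basis.coord i ((y : L) + z) = h.basis.coord i y + h.basis.coord i z :=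
        map_add _ _ _
      show Infv.vi k K (h.basis.coord i ((y : L) + z)) ≤ _
      rw [this]
      exact Valuation.map_add_le _ hy hz
    | smul p y _ hy =>
      have e0 : (p • y : AtInf L) = algebraMap k[X] (AtInf L) p * y := Algebra.smul_def p y
      have e1 : algebraMap k[X] (AtInf L) p = algebraMap K L (infMap k K p) := hmap p
      rw [e0, e1]
      exact (key p y).trans hy
  have h1 := hco _ hmem
  set X' := algebraMap k[X] K X with hX'
  have e1 : ((x⁻¹) ^ m * β : L) = (X'⁻¹ ^ m) • β := by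
    rw [Algebra.smul_def, map_pow, map_inv₀, hX', ← IsScalarTower.algebraMap_apply k[X] K L]
  rw [e1, map_smul, smul_eq_mul, map_mul, map_pow, map_inv₀, Infv.vi_X] at h1
  have e2 : exp ((c : ℤ) + m) = exp (1 : ℤ) ^ m * exp (c : ℤ) := by
    rw [← exp_nsmul, ← exp_add]
    congr 1
    simp
    ring
  rw [e2]
  have h3 : Infv.vi k K (h.basis.coord i β) = exp (1 : ℤ) ^ m *
      (((exp (1 : ℤ))⁻¹) ^ m * Infv.vi k K (h.basis.coord i β)) := by
    rw [← mul_assoc, ← mul_pow, mul_inv_cancel₀ exp_ne_zero, one_pow, one_mul]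
  rw [h3]
  exact mul_le_mul_right h1 _

theorem coord_crd (h : IsGen g K f θ) {v : Fin (2 * g + 1) → k[X]} {x : L} (hv : Crd g θ v x)
    (i : Fin (2 * g + 1)) : h.basis.coord i x = algebraMap k[X] K (v i) := by
  have e : x = ∑ j, algebraMap k[X] K (v j) • h.basis j := by
    rw [hv]
    refine Finset.sum_congr rfl fun j _ => ?_
    rw [h.basis_apply, Algebra.smul_def, ← IsScalarTower.algebraMap_apply k[X] K L]
  rw [e, Module.Basis.coord_apply, Module.Basis.repr_sum_self]

end gen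

section fin

variable {g N : ℕ} {k K L O : Type} [Field k] [Finite k] [Field K] [Algebra k[X] K]
  [IsFractionRing k[X] K]
  [Field L] [Algebra K L] [Algebra k[X] L] [IsScalarTower k[X] K L] [CommRing O]
  [IsDedekindDomain O] [Algebra O L] [IsFractionRing O L] [Algebra k[X] O]
  [IsScalarTower k[X] O L] [IsIntegralClosure O k[X] L] {r : k[X]} {f : k[X][X]} {θ : L}

theorem rep1 (hF : Fm g N r f) (h : IsGen g K f θ) :
    ∃ C₀ : ℕ, ∀ (S : Finset k[X]) (u : k[X] → k[X]), GoodT g f S u → ∀ α : L,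
    SelC O K f θ S u α →
    ∃ (ρ : L) (z : Fin (2 * g + 1) → k[X]), ρ ≠ 0 ∧ Crd g θ z (α * ρ ^ 2) ∧
      ∀ i, (z i).natDegree ≤ C₀ * (1 + dg S) := by
  have hd : Pool.Agent.N352.PJ.dsc g f ≠ 0 := hF.fam.sq.ne_zero
  letI : Algebra k L := RepB.algk k L
  have hk : ∀ c : k, algebraMap k L c = algebraMap k[X] L (C c) := fun _ => rfl
  haveI : IsFF k L := isFF h hk
  letI : Algebra k O := ((algebraMap k[X] O).comp C).toAlgebra
  haveI : IsScalarTower k O L := IsScalarTower.of_algebraMap_eq fun c => by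
    rw [hk, IsScalarTower.algebraMap_apply k[X] O L]
    rfl
  have hinj := RepB.algL_inj (k := k) (K := K) (L := L)
  have htr := RepB.transc (k := k) (K := K) (L := L) hk
  set x := algebraMap k[X] L X with hx
  obtain ⟨γ, hγ⟩ := RepA.small_rep (k := k) htr
  obtain ⟨c, hc⟩ := inf_bound h hd hk
  rw [← hx] at hc
  have hne : ∀ p : k[X], p ≠ 0 → algebraMap k[X] L p ≠ 0 := fun p hp h0 =>
    hp (hinj (by rw [h0, map_zero]))
  refine ⟨c + 2 * γ + 4, fun S u hS α hα => ?_⟩
  set M : k[X] := ∏ P ∈ S, P with hM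
  have hM0 : M ≠ 0 := Finset.prod_ne_zero_iff.2 fun P hP => (hS.irr P hP).ne_zero
  have hMdeg : M.natDegree = ∑ P ∈ S, P.natDegree := by
    rw [hM, natDegree_prod _ _ fun P hP => (hS.irr P hP).ne_zero]
  obtain ⟨ρ, hρ0, hρ⟩ := hγ M.natDegree (algebraMap k[X] L M) (hne M hM0)
    (fun P => Run7.h225.TS.REP.ord_poly hk (hne M hM0) P) α hα.ne (by
      intro P hodd
      by_contra hcon
      push Not at hcon
      obtain ⟨hx0, hMP⟩ := hcon
      have hregX : ∀ p : k[X], P.Reg (algebraMap k[X] L p) := by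
        intro p
        by_cases hp : p = 0
        · rw [hp, map_zero]
          exact Or.inl rfl
        · refine Or.inr ?_
          have := Run7.h225.TS.REP.ord_poly hk (hne p hp) P
          rw [← hx, max_eq_right (by omega), mul_zero] at this
          exact this
      have hregO : ∀ z : O, P.Reg (algebraMap O L z) := fun z =>
        P.reg_of_isIntegral (A := k[X]) hregX (Pool.Agent.N862.PP.isInt (L := L) z)
      obtain ⟨𝔓, rfl⟩ := exists_placeOf_eq P hregO
      obtain ⟨p, hpm, hpi, hpov⟩ := Run7.h225.TS.REP.below (k := k) (L := L) 𝔓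
      have hpM : ¬ p ∣ M := by
        rintro ⟨q, hq⟩
        have h1 : algebraMap k[X] L M ≠ 0 := hne M hM0
        have h2 : 𝔓.valuation L (algebraMap k[X] L M) < 1 := by
          rw [IsScalarTower.algebraMap_apply k[X] O L]
          refine (𝔓.valuation_lt_one_iff_mem _).2 ?_
          rw [hq, map_mul]
          exact Ideal.mul_mem_right _ _ hpov
        have h3 := (placeOf_pos (k := k) 𝔓 h1).2 h2
        omega
      have hpS : p ∉ S := fun hpS => hpM (Finset.dvd_prod_of_mem (fun P => P) hpS)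
      obtain ⟨y, hy⟩ := hα.ev p hpm hpi hpS 𝔓 hpov
      have hvα : 𝔓.valuation L α ≠ 0 := (Valuation.ne_zero_iff _).2 hα.ne
      have hvy : 𝔓.valuation L y ≠ 0 := by
        intro h0
        rw [h0] at hy
        exact hvα (by rw [hy]; simp)
      have h4 : (placeOf (k := k) (L := L) 𝔓).ord α = -(2 * log (𝔓.valuation L y)) := by
        rw [placeOf_ord, hy, pow_two, log_mul hvy hvy]
        ring
      rw [h4] at hodd
      rcases hodd with ⟨t, ht⟩
      omega)
  set m : ℕ := 2 * (M.natDegree + 1 + γ) with hm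
  set β := α * ρ ^ 2 with hβ
  have hβ0 : β ≠ 0 := mul_ne_zero hα.ne (pow_ne_zero 2 hρ0)
  have hr' : ∀ P : Place k L, -(m : ℤ) * max (- P.ord x) 0 ≤ P.ord β := by
    intro P
    have := hρ P
    rw [hm]
    push_cast at this ⊢
    exact this
  have hint : ∀ 𝔓 : HeightOneSpectrum O, 𝔓.valuation L β ≤ 1 := by
    intro 𝔓
    refine (placeOf_nonneg (k := k) 𝔓 hβ0).1 ?_
    have h1 := hr' (placeOf 𝔓)
    have h2 : 0 ≤ (placeOf (k := k) (L := L) 𝔓).ord x := by
      rw [placeOf_nonneg 𝔓 (hne X X_ne_zero), IsScalarTower.algebraMap_apply k[X] O L]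
      exact 𝔓.valuation_le_one _
    rw [max_eq_right (by omega), mul_zero] at h1
    exact h1
  obtain ⟨z, hz⟩ := HeightOneSpectrum.mem_integers_of_valuation_le_one L _ hint
  have hβint : IsIntegral k[X] β := by
    rw [← hz]
    exact Pool.Agent.N862.PP.isInt (L := L) z
  obtain ⟨v, hv⟩ := (Pool.Agent.N769.PJ.int g k K L f θ h hF.fam.sq β).1 hβint
  refine ⟨ρ, v, hρ0, hv, ?_⟩
  intro i
  by_cases hvi : v i = 0
  · rw [hvi, natDegree_zero]
    exact Nat.zero_le _
  have h3 := hc m β hβ0 hr' i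
  rw [coord_crd h hv, Infv.vi_poly hvi, exp_le_exp] at h3
  have h4 : (v i).natDegree ≤ c + m := by omega
  rw [hm, hMdeg] at h4
  have h5 : dg S = ∑ P ∈ S, P.natDegree := rfl
  rw [h5]
  set s := ∑ P ∈ S, P.natDegree with hs
  refine h4.trans ?_
  nlinarith [Nat.zero_le (c * s), Nat.zero_le (γ * s)]

theorem T_REP : P_REP := by
  intro k K L O _ _ _ _ _ _ _ _ _ _ _ _ _ _ _ _ g N r f θ hF h
  have hrep1 := rep1 (O := O) hF h
  refine ⟨hrep1, fun S u hS hG => ?_⟩
  obtain ⟨C₀, hC⟩ := hrep1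
  set N := C₀ * (1 + dg S) with hN
  have hfin : {z : Fin (2 * g + 1) → k[X] | ∀ i, (z i).natDegree ≤ N}.Finite := by
    have := Set.Finite.pi' (ι := Fin (2 * g + 1)) (t := fun _ => {p : k[X] | p.natDegree ≤ N})
      (fun _ => Run7.h225.TS.REP.fin_deg N)
    exact this
  set G := SelG O K f θ S u with hGdef
  have hex : ∀ α : Lˣ, ∃ (z : Fin (2 * g + 1) → k[X]), α ∈ G → (∀ i, (z i).natDegree ≤ N) ∧
      ∃ r : L, r ≠ 0 ∧ Crd g θ z ((α : L) * r ^ 2) := by
    intro α
    by_cases hα : α ∈ G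
    · obtain ⟨r, z, hr, hz, hd⟩ := hC S u hS α ((hG α).1 hα)
      exact ⟨z, fun _ => ⟨hd, r, hr, hz⟩⟩
    · exact ⟨0, fun h0 => absurd h0 hα⟩
  choose φ hf using hex
  haveI : Finite {z : Fin (2 * g + 1) → k[X] | ∀ i, (z i).natDegree ≤ N} := hfin.to_subtype
  have hfinq : Finite (G ⧸ (sqL L).subgroupOf G) := by
    refine Finite.of_injective (fun q : G ⧸ (sqL L).subgroupOf G =>
      (⟨φ ((Quotient.out q : G) : Lˣ), (hf _ (Quotient.out q : G).2).1⟩ :
        {z : Fin (2 * g + 1) → k[X] | ∀ i, (z i).natDegree ≤ N})) ?_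
    intro q q' hqq
    have hqq' := congrArg Subtype.val hqq
    simp only at hqq'
    rw [← Quotient.out_eq q, ← Quotient.out_eq q']
    set y : G := Quotient.out q with hy
    set y' : G := Quotient.out q' with hy'
    obtain ⟨-, r, hr, hcr⟩ := hf _ y.2
    obtain ⟨-, s, hs, hcs⟩ := hf _ y'.2
    rw [hqq'] at hcr
    have e : ((y : Lˣ) : L) * r ^ 2 = ((y' : Lˣ) : L) * s ^ 2 := by
      have e1 : ((y : Lˣ) : L) * r ^ 2 = _ := hcr
      have e2 : ((y' : Lˣ) : L) * s ^ 2 = _ := hcs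
      rw [e1, e2]
    rw [QuotientGroup.eq, Subgroup.mem_subgroupOf]
    refine ⟨Units.mk0 (r / s) (div_ne_zero hr hs), ?_⟩
    apply Units.ext
    show (r / s) ^ 2 = (((y : Lˣ)⁻¹ * (y' : Lˣ) : Lˣ) : L)
    rw [Units.val_mul, Units.val_inv_eq_inv_val]
    have hy0 : ((y : Lˣ) : L) ≠ 0 := Units.ne_zero _
    field_simp
    linear_combination e
  unfold sz
  rw [Subgroup.relIndex, Subgroup.index]
  exact Nat.card_ne_zero.2 ⟨⟨1⟩, hfinq⟩

end fin

end Run7.h382.TG.REP
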